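import Pool.Agent.H72.ProLie.Final

/-!
Closures of analytic subgroups of pro-Lie groups: for every pro-Lie group `G` (connected or not)
and every closed subalgebra `h` of its Lie algebra `L(G) = Hom(ℝ, G)`, the analytic subgroup `A(h)`
is normal in its closure and the quotient is abelian.

The definitions used in the statement are in `Pool.Agent.H72.ProLie.Defs`; `sum_exists` and
`bracket_exists` below show that the sum and the bracket of two elements of `L(G)` exist and are
unique.

Sketch of the proof.  Work in all Lie quotients `G_N = G ⧸ N` at once; `h_N ⊆ L(G_N)` is the image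
of `h` and `H_N` the closure of `A(h_N)`.
* Semisimple step: for `x` in the closure `H` of `A(h)` there are `X₁, X₂ ∈ h` such that
  `z = (exp X₁ exp X₂)⁻¹ x` acts trivially on all `h_N / rad h_N` (two exponentials suffice in a
  simple quotient, and the choices in different simple quotients are glued by linear compactness).
* For such `z` and every `y ∈ H`, and paths `γ, η` in `H_N` from `1` to `z_N, y_N`, the commutator
  path is homotopic to `t ↦ exp (t X_N)` for a unique `X_N ∈ rad h_N` with `ad X_N` nilpotent:
  existence because `[L(H_N), rad L(H_N)]` is a nilpotent ideal, uniqueness because no nontrivial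
  loop `exp (t v)`, `v ∈ rad`, is null-homotopic.  Hence the `X_N` are compatible, define `X ∈ h`
  with `exp X = [z, y]`.
-/

set_option autoImplicit false

open Filter Topology Set
open scoped Manifold ContDiff commutatorElement

namespace Pool.Agent.Results.MP_93228b_al.ClosureCommutator

open Pool.Agent.H72.ProLie

variable (G : Type*) [Group G] [TopologicalSpace G]

/-- The index set: closed normal subgroups with Lie quotient. -/
def Idx : Type _ := {N : Subgroup G // ∃ _ : N.Normal, IsClosed (N : Set G) ∧ IsLieQuotient N}

variable {G}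

/-- The subgroup of an index. -/
def Idx.N (i : Idx G) : Subgroup G := i.1

instance (i : Idx G) : (i.N).Normal := i.2.choose

instance (i : Idx G) : IsClosed (i.N : Set G) := i.2.choose_spec.1

/-- The dimension of the quotient. -/
noncomputable def Idx.dim (i : Idx G) : ℕ := i.2.choose_spec.2.choose

variable [IsTopologicalGroup G]

theorem exists_data (i : Idx G) : Nonempty (ExpData (G ⧸ i.N) (EuclideanSpace ℝ (Fin i.dim))) := by
  obtain ⟨c, hc⟩ := i.2.choose_spec.2.choose_spec
  let _ : ChartedSpace (EuclideanSpace ℝ (Fin i.dim)) (G ⧸ i.N) := c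
  have _ : LieGroup (𝓡 i.dim) ∞ (G ⧸ i.N) := hc
  exact exists_expData_of_lieGroup (G ⧸ i.N) (EuclideanSpace ℝ (Fin i.dim))

omit [IsTopologicalGroup G] in
theorem small (hG : IsProLie G) : ∀ U ∈ 𝓝 (1 : G), ∃ i : Idx G, (i.N : Set G) ⊆ U := by
  intro U hU
  obtain ⟨N, h1, h2, h3, h4⟩ := hG.approx U hU
  exact ⟨⟨N, h1, h2, h4⟩, h3⟩

/-- In a pro-Lie group the sum of two one-parameter subgroups exists and is unique. -/
theorem sum_exists (hG : IsProLie G) (X Y : LG G) : ∃! Z, IsSum X Y Z := by
  have := hG.hausdorff
  exact exists_isSum (N := Idx.N) (fun i => (exists_data i).some) (small hG) hG.complete X Y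

/-- In a pro-Lie group the bracket of two one-parameter subgroups exists and is unique. -/
theorem bracket_exists (hG : IsProLie G) (X Y : LG G) : ∃! Z, IsBracket X Y Z := by
  have := hG.hausdorff
  exact exists_isBracket (N := Idx.N) (fun i => (exists_data i).some) (small hG) hG.complete X Y

/-- **Main theorem.** -/
theorem result (G : Type*) [Group G] [TopologicalSpace G] [IsTopologicalGroup G]
    (hG : IsProLie G) (h : Set (LG G)) (hh : IsClosedSubalgebra h) :
    ∃ _ : ((analyticSubgroup h).subgroupOf (analyticSubgroup h).topologicalClosure).Normal,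
      ∀ x y : (analyticSubgroup h).topologicalClosure ⧸
        (analyticSubgroup h).subgroupOf (analyticSubgroup h).topologicalClosure,
        x * y = y * x := by
  have := hG.hausdorff
  obtain ⟨h1, h2⟩ := main_sys (N := Idx.N) (fun i => (exists_data i).some) (small hG) hG.complete hh
  have hn : ((analyticSubgroup h).subgroupOf (analyticSubgroup h).topologicalClosure).Normal := by
    constructor
    rintro ⟨a, haK⟩ ha ⟨g, hg⟩
    exact h1 g hg a ha
  refine ⟨hn, ?_⟩
  intro x y
  obtain ⟨⟨a, ha⟩, rfl⟩ := QuotientGroup.mk_surjective x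
  obtain ⟨⟨b, hb⟩, rfl⟩ := QuotientGroup.mk_surjective y
  rw [← QuotientGroup.mk_mul, ← QuotientGroup.mk_mul, QuotientGroup.eq]
  have h3 := h2 b⁻¹ (inv_mem hb) a⁻¹ (inv_mem ha)
  rw [commutatorElement_def, inv_inv, inv_inv] at h3
  show (a * b)⁻¹ * (b * a) ∈ analyticSubgroup h
  have e : (a * b)⁻¹ * (b * a) = b⁻¹ * a⁻¹ * b * a := by group
  rw [e]; exact h3

end Pool.Agent.Results.MP_93228b_al.ClosureCommutator
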